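import Pool.Agent.R953.UF

/-!
# Edge marginals of uniform forests with a fixed number of components are not monotone

There is a connected graph on `7` vertices (a triangle-free graph with `10` edges: two vertices `5`
and `6` joined by the edge `e`, by three paths of length `2` and by one path of length `3`) in which
the edge `e` belongs to a uniform spanning tree with probability `24/68 = 6/17` and to a uniform
forest with two components with the larger probability `60/168 = 5/14`.
-/

set_option autoImplicit false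

open SimpleGraph

namespace Pool.Agent.Results.MP_bb4aa0_pr.NotMonotone

open Pool.Agent.R953.UF

/-- The set `𝓕^(k)(G)` of the forests of `G` with exactly `k` connected components: spanning
subgraphs without cycles whose number of components is `k`. -/
def forests {V : Type*} (G : SimpleGraph V) (k : ℕ) : Set (SimpleGraph V) :=
  {H | H ≤ G ∧ H.IsAcyclic ∧ Nat.card H.ConnectedComponent = k}

/-- `UF_k[ω(e) = 1]`: the probability that the edge `e` belongs to a uniformly random forest of `G`
with exactly `k` components. -/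
noncomputable def UF {V : Type*} (G : SimpleGraph V) (k : ℕ) (e : Sym2 V) : ℝ :=
  ({H | H ∈ forests G k ∧ e ∈ H.edgeSet}.ncard : ℝ) / ((forests G k).ncard : ℝ)

/-- the edges other than `{5, 6}` -/
def es : List (Fin 7 × Fin 7) :=
  [(0, 5), (0, 6), (1, 5), (1, 6), (2, 5), (2, 6), (3, 4), (3, 6), (4, 5)]

lemma ok : Ok (⊥ : SimpleGraph (Fin 7)) ((5, 6) :: es) := by
  apply ok_bot <;> decide

lemma count_all (k : ℕ) :
    (forests (gr (((5, 6) : Fin 7 × Fin 7) :: es)) k).ncard =
      cntF k (((5, 6) : Fin 7 × Fin 7) :: es) (List.range 7) 7 := by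
  rw [← cntF_spec k _ _ _ _ ok (Rep.bot 7) isAcyclic_bot]
  congr 1
  ext H
  simp only [forests, Set.mem_ofPred_eq, le_gr_iff, ForP]

lemma count_with (k : ℕ) :
    {H | H ∈ forests (gr (((5, 6) : Fin 7 × Fin 7) :: es)) k ∧ s(5, 6) ∈ H.edgeSet}.ncard =
      cntF k es (mrg (List.range 7) 5 6) 6 := by
  have h1 : IsAcyclic (⊥ ⊔ edge (5 : Fin 7) 6) := by
    rw [isAcyclic_sup_fromEdgeSet_iff]
    refine ⟨isAcyclic_bot, fun h => ?_⟩
    rw [reachable_bot] at h
    exact Or.inl h
  rw [← cntF_spec k es (⊥ ⊔ edge 5 6) (mrg (List.range 7) 5 6) 6 (ok.2.2.2.sup ok.2.2.1)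
    (rep_edge (5, 6) (by decide)) h1]
  congr 1
  ext H
  have := mem_edge_iff ok H
  simp only [forests, Set.mem_ofPred_eq, ForP] at this ⊢
  rw [← this]
  tauto

lemma conn : (gr (((5, 6) : Fin 7 × Fin 7) :: es)).Connected := by
  have h : (forests (gr (((5, 6) : Fin 7 × Fin 7) :: es)) 1).ncard = 68 := by
    rw [count_all]; decide +kernel
  have h1 : (forests (gr (((5, 6) : Fin 7 × Fin 7) :: es)) 1).Nonempty := by
    rw [Set.nonempty_iff_ne_empty]
    intro h2
    rw [h2, Set.ncard_empty] at h
    omega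
  obtain ⟨H, h2, -, h3⟩ := h1
  exact ((connected_iff_card H).2 h3).mono h2

/-- **Theorem.** There are a connected graph `G` on `7` vertices and an edge `e` of `G` with
`UF_1[ω(e) = 1] = 6/17 < 5/14 = UF_2[ω(e) = 1]`. So the map `k ↦ UF_k[ω(e) = 1]` need not be
non-increasing. -/
theorem result : ∃ (G : SimpleGraph (Fin 7)) (e : Sym2 (Fin 7)), G.Connected ∧ e ∈ G.edgeSet ∧
    UF G 1 e = 6 / 17 ∧ UF G 2 e = 5 / 14 ∧ UF G 1 e < UF G 2 e := by
  have h1 : UF (gr (((5, 6) : Fin 7 × Fin 7) :: es)) 1 s(5, 6) = 6 / 17 := by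
    unfold UF
    rw [count_all, count_with]
    have e1 : cntF 1 (((5, 6) : Fin 7 × Fin 7) :: es) (List.range 7) 7 = 68 := by decide +kernel
    have e2 : cntF 1 es (mrg (List.range 7) 5 6) 6 = 24 := by decide +kernel
    rw [e1, e2]
    norm_num
  have h2 : UF (gr (((5, 6) : Fin 7 × Fin 7) :: es)) 2 s(5, 6) = 5 / 14 := by
    unfold UF
    rw [count_all, count_with]
    have e1 : cntF 2 (((5, 6) : Fin 7 × Fin 7) :: es) (List.range 7) 7 = 168 := by decide +kernel
    have e2 : cntF 2 es (mrg (List.range 7) 5 6) 6 = 60 := by decide +kernel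
    rw [e1, e2]
    norm_num
  refine ⟨gr (((5, 6) : Fin 7 × Fin 7) :: es), s(5, 6), conn, ?_, h1, h2, ?_⟩
  · rw [mem_edgeSet, gr_adj]
    exact ⟨(5, 6), List.mem_cons_self, rfl, by decide⟩
  · rw [h1, h2]
    norm_num

end Pool.Agent.Results.MP_bb4aa0_pr.NotMonotone
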